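import Pool.Agent.helper64.EY.Jn
import Pool.Agent.helper5.EY.ZZ

set_option autoImplicit false

/-!
# EY-B1: the states with one variable `x = b`, `q = 2 h` even, `E = r ≤ h` (step (B1) of the module U)

`φ = ∫_0^b (σ - t²)^h dt + ∫_0^w t^(2h-2r) (σ - b² - t²)^r dt`. At `w = 1`, with `u = σ - b² - 1`: `φ_w = u^r`,
`φ_b = (1 + u)^h - 2 r b K(u)`, `K(0) > 0`, so the scheme is `Spec ℂ[u]/(u^r)`. `nd`, `ZZ` by positivity.
-/

namespace EY

open MvPolynomial

noncomputable section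

/-- the form -/
def b1 (h r : ℕ) : MvPolynomial (Option (Option (Fin 1))) ℂ :=
  Jn h 0 (X none) (X (some (some 0))) +
    Jn r (2 * h - 2 * r) (X none - X (some (some 0)) ^ 2) (X (some none))

theorem b1_wh {h r : ℕ} (hr : r ≤ h) : wh (vw (Fin 1)) (2 * h + 1) (b1 h r) := by
  have h1 : wh (vw (Fin 1)) 2 (X none : MvPolynomial (Option (Option (Fin 1))) ℂ) := wh_X _ _
  have h2 : wh (vw (Fin 1)) 1 (X (some none) : MvPolynomial (Option (Option (Fin 1))) ℂ) := wh_X _ _
  have h3 : wh (vw (Fin 1)) 1 (X (some (some 0)) : MvPolynomial (Option (Option (Fin 1))) ℂ) := wh_X _ _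
  have h4 : wh (vw (Fin 1)) 2 (X none - X (some (some 0)) ^ 2 : MvPolynomial (Option (Option (Fin 1))) ℂ) :=
    wh_sub h1 (by have := wh_pow h3 2; rwa [one_mul] at this)
  refine wh_add (wh_Jn h 0 h1 h3) ?_
  have h5 := wh_Jn r (2 * h - 2 * r) h4 h2
  have h6 : 2 * r + (2 * h - 2 * r) + 1 = 2 * h + 1 := by omega
  rwa [h6] at h5

/-- `∂_σ` -/
theorem b1_s (h r : ℕ) : pderiv none (b1 h r) = (h : MvPolynomial (Option (Option (Fin 1))) ℂ) *
    Jn (h - 1) 0 (X none) (X (some (some 0))) + (r : MvPolynomial (Option (Option (Fin 1))) ℂ) *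
      Jn (r - 1) (2 * h - 2 * r) (X none - X (some (some 0)) ^ 2) (X (some none)) := by
  unfold b1
  rw [map_add, pderiv_Jn, pderiv_Jn, map_sub, Derivation.leibniz_pow, pderiv_X, pderiv_X, pderiv_X]
  simp

/-- `∂_w` -/
theorem b1_w (h r : ℕ) : pderiv (some none) (b1 h r) = X (some none) ^ (2 * h - 2 * r) *
    (X none - X (some (some 0)) ^ 2 - X (some none) ^ 2) ^ r := by
  unfold b1
  rw [map_add, pderiv_Jn, pderiv_Jn, map_sub, Derivation.leibniz_pow, pderiv_X, pderiv_X, pderiv_X]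
  simp

/-- `∂_b` -/
theorem b1_b (h r : ℕ) : pderiv (some (some 0)) (b1 h r) = (X none - X (some (some 0)) ^ 2) ^ h -
    2 * (r : MvPolynomial (Option (Option (Fin 1))) ℂ) * X (some (some 0)) *
      Jn (r - 1) (2 * h - 2 * r) (X none - X (some (some 0)) ^ 2) (X (some none)) := by
  unfold b1
  rw [map_add, pderiv_Jn, pderiv_Jn, map_sub, Derivation.leibniz_pow, pderiv_X, pderiv_X, pderiv_X]
  simp
  ring

/-- `κ = ∫_0^1 t^m (1-t²)^n dt > 0` -/
theorem Jn_one_pos (n m : ℕ) : 0 < Jn n m (1 : ℝ) 1 := Jn_pos n m one_pos (by norm_num)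

theorem Jn_sq (n m : ℕ) (w : ℂ) : Jn n m (w ^ 2) w = w ^ (2 * n + m + 1) * ((Jn n m (1 : ℝ) 1 : ℝ) : ℂ) := by
  have h1 := Jn_scale n m w 1 1
  rw [mul_one, mul_one] at h1
  rw [h1, ← Jn_ofReal]
  simp

theorem ext3 {p : Option (Option (Fin 1)) → ℂ} (h0 : p none = 0) (h1 : p (some none) = 0)
    (h2 : p (some (some 0)) = 0) : p = 0 := by
  funext o
  rcases o with _ | _ | i
  · exact h0
  · exact h1
  · rw [Subsingleton.elim i 0]
    exact h2

variable {h r : ℕ}

theorem ev_s (p : Option (Option (Fin 1)) → ℂ) : eval p (pderiv none (b1 h r)) = (h : ℂ) *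
    Jn (h - 1) 0 (p none) (p (some (some 0))) + (r : ℂ) *
      Jn (r - 1) (2 * h - 2 * r) (p none - p (some (some 0)) ^ 2) (p (some none)) := by
  rw [b1_s, map_add, map_mul, map_mul, map_Jn, map_Jn]
  simp

theorem ev_w (p : Option (Option (Fin 1)) → ℂ) : eval p (pderiv (some none) (b1 h r)) =
    p (some none) ^ (2 * h - 2 * r) * (p none - p (some (some 0)) ^ 2 - p (some none) ^ 2) ^ r := by
  rw [b1_w]
  simp

theorem ev_b (p : Option (Option (Fin 1)) → ℂ) : eval p (pderiv (some (some 0)) (b1 h r)) =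
    (p none - p (some (some 0)) ^ 2) ^ h - 2 * (r : ℂ) * p (some (some 0)) *
      Jn (r - 1) (2 * h - 2 * r) (p none - p (some (some 0)) ^ 2) (p (some none)) := by
  rw [b1_b, map_sub, map_mul, map_Jn]
  simp

/-- a zero of `φ_w` and `φ_b` with `w ≠ 0`: `r ≥ 1`, `σ - b² = w²`, `w = 2 r κ b` -/
theorem crit_w (hr : r ≤ h) {p : Option (Option (Fin 1)) → ℂ} (hw : eval p (pderiv (some none) (b1 h r)) = 0)
    (hb : eval p (pderiv (some (some 0)) (b1 h r)) = 0) (h0 : p (some none) ≠ 0) :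
    1 ≤ r ∧ p none - p (some (some 0)) ^ 2 = p (some none) ^ 2 ∧
      p (some none) = 2 * (r : ℂ) * ((Jn (r - 1) (2 * h - 2 * r) (1 : ℝ) 1 : ℝ) : ℂ) * p (some (some 0)) := by
  rw [ev_w] at hw
  rcases mul_eq_zero.mp hw with h1 | h1
  · exact absurd (eq_zero_of_pow_eq_zero h1) h0
  have hr1 : 1 ≤ r := by
    rcases Nat.eq_zero_or_pos r with h2 | h2
    · rw [h2, pow_zero] at h1
      exact absurd h1 one_ne_zero
    · exact h2
  have h2 : p none - p (some (some 0)) ^ 2 = p (some none) ^ 2 := sub_eq_zero.mp (eq_zero_of_pow_eq_zero h1)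
  refine ⟨hr1, h2, ?_⟩
  rw [ev_b, h2, Jn_sq] at hb
  have h3 : 2 * (r - 1) + (2 * h - 2 * r) + 1 = 2 * h - 1 := by omega
  have h4 : (p (some none) ^ 2) ^ h = p (some none) ^ (2 * h - 1) * p (some none) := by
    rw [← pow_mul, ← pow_succ]
    congr 1
    omega
  rw [h3, h4] at hb
  have h5 : p (some none) ^ (2 * h - 1) * (p (some none) -
      2 * (r : ℂ) * ((Jn (r - 1) (2 * h - 2 * r) (1 : ℝ) 1 : ℝ) : ℂ) * p (some (some 0))) = 0 := by
    linear_combination hb
  rcases mul_eq_zero.mp h5 with h6 | h6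
  · exact absurd (eq_zero_of_pow_eq_zero h6) h0
  · exact sub_eq_zero.mp h6

theorem b1_ndx (p : Option (Option (Fin 1)) → ℂ) (h0 : p none = 0) (h1 : p (some none) = 0)
    (h2 : eval p (pderiv (some (some 0)) (b1 h r)) = 0) : p = 0 := by
  rw [ev_b, h0, h1, Jn_zero, mul_zero, sub_zero, zero_sub] at h2
  have h3 := eq_zero_of_pow_eq_zero h2
  exact ext3 h0 h1 (eq_zero_of_pow_eq_zero (neg_eq_zero.mp h3))

theorem b1_nd (hr : r ≤ h) (p : Option (Option (Fin 1)) → ℂ) (h0 : p none = 0)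
    (hv : ∀ v : Option (Fin 1), eval p (pderiv (some v) (b1 h r)) = 0) : p = 0 := by
  by_cases hw : p (some none) = 0
  · exact b1_ndx p h0 hw (hv (some 0))
  · exfalso
    obtain ⟨hr1, h1, h2⟩ := crit_w hr (hv none) (hv (some 0)) hw
    set κ : ℝ := Jn (r - 1) (2 * h - 2 * r) (1 : ℝ) 1 with hκ
    have hκ0 : 0 < κ := Jn_one_pos _ _
    rw [h0, zero_sub] at h1
    have hb : p (some (some 0)) ≠ 0 := by
      intro hb
      rw [hb, mul_zero] at h2
      exact hw h2
    have h3 : (((1 + (2 * (r : ℝ) * κ) ^ 2 : ℝ)) : ℂ) * p (some (some 0)) ^ 2 = 0 := by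
      have h4 : p (some none) ^ 2 = (2 * (r : ℂ) * (κ : ℂ) * p (some (some 0))) ^ 2 := by
        rw [← h2]
      push_cast
      linear_combination (-1 : ℂ) * h1 - h4
    rcases mul_eq_zero.mp h3 with h4 | h4
    · have h5 : (0 : ℝ) < 1 + (2 * (r : ℝ) * κ) ^ 2 := by positivity
      exact h5.ne' (Complex.ofReal_eq_zero.mp h4)
    · exact hb (eq_zero_of_pow_eq_zero h4)

theorem b1_ZZ (hh : 1 ≤ h) (hr : r ≤ h) : ZZ (b1 h r) := by
  intro p hp
  by_cases hw : p (some none) = 0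
  · have h2 := hp (some (some 0))
    rw [ev_b, hw, Jn_zero, mul_zero, sub_zero] at h2
    have h3 : p none = p (some (some 0)) ^ 2 := sub_eq_zero.mp (eq_zero_of_pow_eq_zero h2)
    have h4 := hp none
    rw [ev_s, hw, Jn_zero, mul_zero, add_zero, h3, Jn_sq] at h4
    have hκ0 := Jn_one_pos (h - 1) 0
    have hh0 : (h : ℂ) ≠ 0 := by
      rw [Nat.cast_ne_zero]
      omega
    rcases mul_eq_zero.mp h4 with h5 | h5
    · exact absurd h5 hh0
    rcases mul_eq_zero.mp h5 with h6 | h6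
    · have h7 := eq_zero_of_pow_eq_zero h6
      exact ext3 (by rw [h3, h7]; ring) hw h7
    · exact absurd (Complex.ofReal_eq_zero.mp h6) hκ0.ne'
  · exfalso
    obtain ⟨hr1, h1, h2⟩ := crit_w hr (hp (some none)) (hp (some (some 0))) hw
    set κ : ℝ := Jn (r - 1) (2 * h - 2 * r) (1 : ℝ) 1 with hκ
    have hκ0 : 0 < κ := Jn_one_pos _ _
    have hb : p (some (some 0)) ≠ 0 := by
      intro hb
      rw [hb, mul_zero] at h2
      exact hw h2
    have h4 := hp none
    rw [ev_s, h1, Jn_sq, ← hκ] at h4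
    set c : ℝ := 2 * (r : ℝ) * κ with hc
    have hc0 : 0 < c := by
      have : (0 : ℝ) < r := by exact_mod_cast hr1
      positivity
    have h5 : p (some none) = p (some (some 0)) * (c : ℂ) := by
      rw [h2, hc]
      push_cast
      ring
    have h6 : p none = p (some (some 0)) ^ 2 * (((1 + c ^ 2 : ℝ)) : ℂ) := by
      have h7 : p none = p (some (some 0)) ^ 2 + p (some none) ^ 2 := by linear_combination h1
      rw [h7, h5]
      push_cast
      ring
    have h8 := Jn_scale (h - 1) 0 (p (some (some 0))) (((1 + c ^ 2 : ℝ)) : ℂ) 1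
    rw [mul_one, ← h6] at h8
    have h9 : Jn (h - 1) 0 (((1 + c ^ 2 : ℝ)) : ℂ) (1 : ℂ) = ((Jn (h - 1) 0 (1 + c ^ 2) (1 : ℝ) : ℝ) : ℂ) := by
      rw [← Jn_ofReal]
      simp
    have h10 : 0 < Jn (h - 1) 0 (1 + c ^ 2) (1 : ℝ) := Jn_pos _ _ one_pos (by nlinarith)
    rw [h8, h9, h5] at h4
    have e1 : 2 * (h - 1) + 0 + 1 = 2 * h - 1 := by omega
    have e2 : 2 * (r - 1) + (2 * h - 2 * r) + 1 = 2 * h - 1 := by omega
    rw [e1, e2] at h4
    have hmp := mul_pow (p (some (some 0))) (c : ℂ) (2 * h - 1)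
    set P : ℝ := Jn (h - 1) 0 (1 + c ^ 2) (1 : ℝ) with hP
    have h11 : p (some (some 0)) ^ (2 * h - 1) * ((((h : ℝ) * P + (r : ℝ) * (c ^ (2 * h - 1) * κ) : ℝ)) : ℂ) = 0 := by
      push_cast
      linear_combination h4 - (r : ℂ) * (κ : ℂ) * hmp
    rcases mul_eq_zero.mp h11 with h12 | h12
    · exact hb (eq_zero_of_pow_eq_zero h12)
    · have h13 : (0 : ℝ) < (h : ℝ) * P + (r : ℝ) * (c ^ (2 * h - 1) * κ) := by
        have h14 : (0 : ℝ) < h := by exact_mod_cast hh
        have h15 : (0 : ℝ) < r := by exact_mod_cast hr1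
        positivity
      exact h13.ne' (Complex.ofReal_eq_zero.mp h12)

/-- the coordinate `u = σ - b² - 1` -/
def bU : MvPolynomial (Option (Fin 1)) ℂ := X none - X (some 0) ^ 2 - 1

theorem cnt_lin (r : ℕ) (A B : Polynomial ℂ) (hAB : IsCoprime (Polynomial.X ^ r) B)
    (I : Ideal (MvPolynomial (Option (Fin 1)) ℂ))
    (hI : I = Ideal.span {bU ^ r, Polynomial.aeval bU A - X (some 0) * Polynomial.aeval bU B}) :
    Module.Finite ℂ (MvPolynomial (Option (Fin 1)) ℂ ⧸ I) ∧
      Module.finrank ℂ (MvPolynomial (Option (Fin 1)) ℂ ⧸ I) = r := by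
  obtain ⟨P, Q, hPQ⟩ := hAB
  set J : Ideal (Polynomial ℂ) := Ideal.span {Polynomial.X ^ r} with hJ
  have hfin : Module.Finite ℂ (Polynomial ℂ ⧸ J) := (Polynomial.monic_X_pow r).finite_quotient
  have hrk : Module.finrank ℂ (Polynomial ℂ ⧸ J) = r := by
    rw [hJ, finrank_quotient_span_eq_natDegree, Polynomial.natDegree_X_pow]
  -- the map from `ℂ[u]/(u^r)`
  have hUr : Ideal.Quotient.mk I (bU ^ r) = 0 := by
    rw [Ideal.Quotient.eq_zero_iff_mem, hI]
    exact Ideal.subset_span (by simp)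
  have hAB2 : Ideal.Quotient.mk I (Polynomial.aeval bU A - X (some 0) * Polynomial.aeval bU B) = 0 := by
    rw [Ideal.Quotient.eq_zero_iff_mem, hI]
    exact Ideal.subset_span (by simp)
  let g : Polynomial ℂ →ₐ[ℂ] (MvPolynomial (Option (Fin 1)) ℂ ⧸ I) :=
    (Ideal.Quotient.mkₐ ℂ I).comp (Polynomial.aeval bU)
  have hg : ∀ p, g p = Ideal.Quotient.mk I (Polynomial.aeval bU p) := fun p => rfl
  have hgX : g Polynomial.X = Ideal.Quotient.mk I bU := by rw [hg, Polynomial.aeval_X]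
  have hgJ : ∀ p ∈ J, g p = 0 := by
    intro p hp
    obtain ⟨a, rfl⟩ := Ideal.mem_span_singleton'.mp hp
    rw [map_mul, map_pow, hgX, ← map_pow, hUr, mul_zero]
  have hb : Ideal.Quotient.mk I (X (some 0)) = g (Q * A) := by
    have h1 : g A - Ideal.Quotient.mk I (X (some 0)) * g B = 0 := by
      rw [hg, hg, ← map_mul, ← map_sub]
      exact hAB2
    have h2 : g Q * g B = 1 - g P * Ideal.Quotient.mk I bU ^ r := by
      have h3 := congrArg g hPQ
      rw [map_add, map_mul, map_mul, map_pow, map_one, hgX] at h3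
      linear_combination h3
    rw [map_pow] at hUr
    rw [map_mul]
    rw [hUr, mul_zero, sub_zero] at h2
    linear_combination (-g Q) * h1 - Ideal.Quotient.mk I (X (some 0)) * h2
  have hσ : Ideal.Quotient.mk I (X none) = g (Polynomial.X + 1 + (Q * A) ^ 2) := by
    rw [map_add, map_add, map_pow, map_one, ← hb, hgX, ← map_pow, ← map_one (Ideal.Quotient.mk I), ← map_add,
      ← map_add]
    congr 1
    unfold bU
    ring
  have hgs : Function.Surjective g := by
    have h1 : ∀ f : MvPolynomial (Option (Fin 1)) ℂ, ∃ p, g p = Ideal.Quotient.mk I f := by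
      intro f
      induction f using MvPolynomial.induction_on with
      | C a => exact ⟨Polynomial.C a, by rw [hg, Polynomial.aeval_C]; rfl⟩
      | add p q hp hq =>
        obtain ⟨a, ha⟩ := hp
        obtain ⟨b, hb⟩ := hq
        exact ⟨a + b, by rw [map_add, map_add, ha, hb]⟩
      | mul_X p i hp =>
        obtain ⟨a, ha⟩ := hp
        rcases i with _ | i
        · exact ⟨a * (Polynomial.X + 1 + (Q * A) ^ 2), by rw [map_mul, map_mul, ha, hσ]⟩
        · rw [Subsingleton.elim i 0]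
          exact ⟨a * (Q * A), by rw [map_mul, ha, map_mul (Ideal.Quotient.mk I), hb]⟩
    intro y
    obtain ⟨f, rfl⟩ := Ideal.Quotient.mk_surjective y
    exact h1 f
  let G : (Polynomial ℂ ⧸ J) →ₐ[ℂ] (MvPolynomial (Option (Fin 1)) ℂ ⧸ I) := Ideal.Quotient.liftₐ J g hgJ
  have hGs : Function.Surjective G := by
    intro y
    obtain ⟨p, hp⟩ := hgs y
    exact ⟨Ideal.Quotient.mk J p, hp⟩
  -- the map to `ℂ[u]/(u^r)`
  let x : Polynomial ℂ ⧸ J := Ideal.Quotient.mk J Polynomial.X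
  have hx : ∀ p : Polynomial ℂ, Polynomial.aeval x p = Ideal.Quotient.mk J p := by
    intro p
    have h1 : (Polynomial.aeval x : Polynomial ℂ →ₐ[ℂ] (Polynomial ℂ ⧸ J)) = Ideal.Quotient.mkₐ ℂ J := by
      apply Polynomial.algHom_ext
      rw [Polynomial.aeval_X]
      rfl
    rw [h1]
    rfl
  let β : Polynomial ℂ ⧸ J := Ideal.Quotient.mk J (Q * A)
  let t : MvPolynomial (Option (Fin 1)) ℂ →ₐ[ℂ] (Polynomial ℂ ⧸ J) :=
    aeval fun o => o.elim (x + 1 + β ^ 2) fun _ => β
  have htb : t (X (some 0)) = β := by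
    change aeval _ _ = _
    rw [aeval_X]
    rfl
  have htσ : t (X none) = x + 1 + β ^ 2 := by
    change aeval _ _ = _
    rw [aeval_X]
    rfl
  have htU : t bU = x := by
    unfold bU
    rw [map_sub, map_sub, map_pow, map_one, htb, htσ]
    ring
  have hxr : x ^ r = 0 := by
    change (Ideal.Quotient.mk J Polynomial.X) ^ r = 0
    rw [← map_pow, Ideal.Quotient.eq_zero_iff_mem]
    exact Ideal.subset_span rfl
  have htp : ∀ p : Polynomial ℂ, t (Polynomial.aeval bU p) = Ideal.Quotient.mk J p := by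
    intro p
    rw [← Polynomial.aeval_algHom_apply, htU, hx]
  have htI : ∀ f ∈ I, t f = 0 := by
    intro f hf
    rw [hI] at hf
    have h1 : Ideal.span {bU ^ r, Polynomial.aeval bU A - X (some 0) * Polynomial.aeval bU B} ≤
        RingHom.ker t := by
      rw [Ideal.span_le]
      rintro y (rfl | rfl)
      · change t _ = 0
        rw [map_pow, htU, hxr]
      · change t _ = 0
        rw [map_sub, map_mul, htp, htp, htb]
        change Ideal.Quotient.mk J A - Ideal.Quotient.mk J (Q * A) * Ideal.Quotient.mk J B = 0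
        rw [← map_mul, ← map_sub, Ideal.Quotient.eq_zero_iff_mem]
        have h2 : A - Q * A * B = A * P * Polynomial.X ^ r := by linear_combination (-A) * hPQ
        rw [h2]
        exact Ideal.mul_mem_left _ _ (Ideal.subset_span rfl)
    exact h1 hf
  let T : (MvPolynomial (Option (Fin 1)) ℂ ⧸ I) →ₐ[ℂ] (Polynomial ℂ ⧸ J) := Ideal.Quotient.liftₐ I t htI
  have hTs : Function.Surjective T := by
    intro y
    obtain ⟨p, rfl⟩ := Ideal.Quotient.mk_surjective y
    exact ⟨Ideal.Quotient.mk I (Polynomial.aeval bU p), htp p⟩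
  have hf2 : Module.Finite ℂ (MvPolynomial (Option (Fin 1)) ℂ ⧸ I) :=
    Module.Finite.of_surjective G.toLinearMap hGs
  refine ⟨hf2, le_antisymm ?_ ?_⟩
  · have := LinearMap.finrank_le_finrank_of_surjective (f := G.toLinearMap) hGs
    rwa [hrk] at this
  · have := LinearMap.finrank_le_finrank_of_surjective (f := T.toLinearMap) hTs
    rwa [hrk] at this


theorem b1_crit_none (h r : ℕ) : critOne (b1 h r) none = bU ^ r := by
  change ev1 (pderiv (some none) (b1 h r)) = _
  rw [b1_w, map_mul, map_pow, map_pow, map_sub, map_sub, map_pow, map_pow]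
  have h1 : ev1 (X none : MvPolynomial (Option (Option (Fin 1))) ℂ) = X none := by
    unfold ev1; rw [aeval_X]; rfl
  have h2 : ev1 (X (some none) : MvPolynomial (Option (Option (Fin 1))) ℂ) = 1 := by
    unfold ev1; rw [aeval_X]; rfl
  have h3 : ev1 (X (some (some 0)) : MvPolynomial (Option (Option (Fin 1))) ℂ) = X (some 0) := by
    unfold ev1; rw [aeval_X]; rfl
  rw [h1, h2, h3, one_pow, one_pow, one_mul]
  rfl

/-- the two polynomials of `u` -/
def b1A (h : ℕ) : Polynomial ℂ := (1 + Polynomial.X) ^ h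
def b1B (h r : ℕ) : Polynomial ℂ :=
  2 * (r : Polynomial ℂ) * Jn (r - 1) (2 * h - 2 * r) (1 + Polynomial.X) 1

theorem b1_crit_some (h r : ℕ) : critOne (b1 h r) (some 0) =
    Polynomial.aeval bU (b1A h) - X (some 0) * Polynomial.aeval bU (b1B h r) := by
  change ev1 (pderiv (some (some 0)) (b1 h r)) = _
  have h1 : ev1 (X none : MvPolynomial (Option (Option (Fin 1))) ℂ) = X none := by
    unfold ev1; rw [aeval_X]; rfl
  have h2 : ev1 (X (some none) : MvPolynomial (Option (Option (Fin 1))) ℂ) = 1 := by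
    unfold ev1; rw [aeval_X]; rfl
  have h3 : ev1 (X (some (some 0)) : MvPolynomial (Option (Option (Fin 1))) ℂ) = X (some 0) := by
    unfold ev1; rw [aeval_X]; rfl
  have h4 : ev1 (Jn (r - 1) (2 * h - 2 * r) (X none - X (some (some 0)) ^ 2) (X (some none)) :
      MvPolynomial (Option (Option (Fin 1))) ℂ) =
      Jn (r - 1) (2 * h - 2 * r) (1 + bU) (1 : MvPolynomial (Option (Fin 1)) ℂ) := by
    have h5 := map_Jn (ev1 (τ := Fin 1)).toRingHom (r - 1) (2 * h - 2 * r)
      (X none - X (some (some 0)) ^ 2) (X (some none))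
    have h6 : (ev1 (τ := Fin 1)).toRingHom (X none - X (some (some 0)) ^ 2) = 1 + bU := by
      change ev1 (X none - X (some (some 0)) ^ 2) = _
      rw [map_sub, map_pow, h1, h3]
      unfold bU
      ring
    have h7 : (ev1 (τ := Fin 1)).toRingHom (X (some none)) = 1 := h2
    rw [h6, h7] at h5
    exact h5
  have h8 : Polynomial.aeval (bU : MvPolynomial (Option (Fin 1)) ℂ) (b1A h) = (1 + bU) ^ h := by
    unfold b1A
    rw [map_pow, map_add, map_one, Polynomial.aeval_X]
  have h9 : Polynomial.aeval (bU : MvPolynomial (Option (Fin 1)) ℂ) (b1B h r) =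
      2 * (r : MvPolynomial (Option (Fin 1)) ℂ) *
        Jn (r - 1) (2 * h - 2 * r) (1 + bU) (1 : MvPolynomial (Option (Fin 1)) ℂ) := by
    unfold b1B
    have h10 := map_Jn (Polynomial.aeval (bU : MvPolynomial (Option (Fin 1)) ℂ) :
      Polynomial ℂ →ₐ[ℂ] MvPolynomial (Option (Fin 1)) ℂ).toRingHom (r - 1) (2 * h - 2 * r)
      (1 + Polynomial.X) 1
    have h11 : (Polynomial.aeval (bU : MvPolynomial (Option (Fin 1)) ℂ) :
      Polynomial ℂ →ₐ[ℂ] MvPolynomial (Option (Fin 1)) ℂ).toRingHom (1 + Polynomial.X) = 1 + bU := by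
      change Polynomial.aeval _ _ = _
      rw [map_add, map_one, Polynomial.aeval_X]
    rw [h11, map_one] at h10
    rw [map_mul, map_mul, map_natCast]
    have h12 : Polynomial.aeval (bU : MvPolynomial (Option (Fin 1)) ℂ) (2 : Polynomial ℂ) = 2 := by
      exact map_ofNat _ 2
    rw [h12]
    congr 1
  rw [h8, h9, b1_b, map_sub, map_mul, map_mul, map_mul, map_pow, map_sub, map_pow, h1, h3, h4, map_natCast]
  have h13 : (ev1 (2 : MvPolynomial (Option (Option (Fin 1))) ℂ) : MvPolynomial (Option (Fin 1)) ℂ) = 2 :=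
    map_ofNat _ 2
  have h14 : (X none - X (some 0) ^ 2 : MvPolynomial (Option (Fin 1)) ℂ) = 1 + bU := by
    unfold bU
    ring
  rw [h13, h14]
  ring

theorem b1_coprime (h r : ℕ) : IsCoprime (Polynomial.X ^ r) (b1B h r) := by
  rcases Nat.eq_zero_or_pos r with h0 | h0
  · rw [h0, pow_zero]
    exact isCoprime_one_left
  · apply IsCoprime.pow_left
    have h1 : (b1B h r).eval 0 = 2 * (r : ℂ) * ((Jn (r - 1) (2 * h - 2 * r) (1 : ℝ) 1 : ℝ) : ℂ) := by
      unfold b1B
      have h2 := map_Jn (Polynomial.evalRingHom (0 : ℂ)) (r - 1) (2 * h - 2 * r) (1 + Polynomial.X) 1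
      rw [Polynomial.coe_evalRingHom, Polynomial.eval_add, Polynomial.eval_X, Polynomial.eval_one,
        add_zero] at h2
      rw [Polynomial.eval_mul, Polynomial.eval_mul, h2, ← Jn_ofReal]
      simp
    have h3 : (b1B h r).eval 0 ≠ 0 := by
      rw [h1]
      have h4 : (r : ℂ) ≠ 0 := by
        rw [Nat.cast_ne_zero]
        omega
      exact mul_ne_zero (mul_ne_zero two_ne_zero h4) (by
        rw [Complex.ofReal_ne_zero]
        exact (Jn_one_pos _ _).ne')
    have h5 := Polynomial.divX_mul_X_add (b1B h r)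
    rw [Polynomial.coeff_zero_eq_eval_zero] at h5
    refine ⟨-(b1B h r).divX * Polynomial.C ((b1B h r).eval 0)⁻¹, Polynomial.C ((b1B h r).eval 0)⁻¹, ?_⟩
    have h6 : Polynomial.C ((b1B h r).eval 0)⁻¹ * Polynomial.C ((b1B h r).eval 0) = 1 := by
      rw [← Polynomial.C_mul, inv_mul_cancel₀ h3, Polynomial.C_1]
    linear_combination h6 - Polynomial.C ((b1B h r).eval 0)⁻¹ * h5

theorem b1_range (h r : ℕ) : Ideal.span (Set.range (critOne (b1 h r))) =
    Ideal.span {bU ^ r, Polynomial.aeval bU (b1A h) - X (some 0) * Polynomial.aeval bU (b1B h r)} := by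
  congr 1
  ext y
  constructor
  · rintro ⟨o, rfl⟩
    rcases o with _ | i
    · rw [b1_crit_none]
      simp
    · rw [Subsingleton.elim i 0, b1_crit_some]
      simp
  · rintro (rfl | rfl)
    · exact ⟨none, b1_crit_none h r⟩
    · exact ⟨some 0, b1_crit_some h r⟩

/-- (B1): the states with one variable, `q = 2 h`, `E = r ≤ h` -/
theorem b1_st {h r : ℕ} (hr : r ≤ h) : St (Fin 1) (2 * h) r (b1 h r) where
  wh := b1_wh hr
  ndx := fun p h0 h1 h2 => b1_ndx p h0 h1 (h2 0)
  nd := fun p h0 h1 => b1_nd hr p h0 h1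
  fin := (cnt_lin r (b1A h) (b1B h r) (b1_coprime h r) _ (b1_range h r)).1
  len := (cnt_lin r (b1A h) (b1B h r) (b1_coprime h r) _ (b1_range h r)).2

theorem b1_state {h r : ℕ} (hh : 1 ≤ h) (hr : r ≤ h) :
    ∃ φ : MvPolynomial (Option (Option (Fin 1))) ℂ, St (Fin 1) (2 * h) r φ ∧ ZZ φ :=
  ⟨b1 h r, b1_st hr, b1_ZZ hh hr⟩

/-- no critical line in `b = 0` -/
theorem b1_nb {h r : ℕ} (hr : r ≤ h) (p : Option (Option (Fin 1)) → ℂ) (h0 : p (some (some 0)) = 0)
    (hw : eval p (pderiv (some none) (b1 h r)) = 0) (hb : eval p (pderiv (some (some 0)) (b1 h r)) = 0) :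
    p = 0 := by
  have hs : p none = 0 := by
    have h1 := hb
    rw [ev_b, h0, mul_zero, zero_mul, sub_zero, zero_pow two_ne_zero, sub_zero] at h1
    exact eq_zero_of_pow_eq_zero h1
  refine b1_nd hr p hs fun v => ?_
  rcases v with _ | i
  · exact hw
  · rw [Subsingleton.elim i 0]
    exact hb

theorem b1_state' {h r : ℕ} (hh : 1 ≤ h) (hr : r ≤ h) :
    ∃ φ : MvPolynomial (Option (Option (Fin 1))) ℂ, St (Fin 1) (2 * h) r φ ∧ ZZ φ ∧
      ∀ p : Option (Option (Fin 1)) → ℂ, p (some (some 0)) = 0 → eval p (pderiv (some none) φ) = 0 →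
        eval p (pderiv (some (some 0)) φ) = 0 → p = 0 :=
  ⟨b1 h r, b1_st hr, b1_ZZ hh hr, b1_nb hr⟩

theorem b1_nb0 {h r : ℕ} (p : Option (Option (Fin 1)) → ℂ) (h0 : p (some (some 0)) = 0)
    (hb : eval p (pderiv (some (some 0)) (b1 h r)) = 0) : p none = 0 := by
  rw [ev_b, h0, mul_zero, zero_mul, sub_zero, zero_pow two_ne_zero, sub_zero] at hb
  exact eq_zero_of_pow_eq_zero hb

theorem b1_w0 {h r : ℕ} (p : Option (Option (Fin 1)) → ℂ) (hs : p none = 0) (h0 : p (some (some 0)) = 0)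
    (hw : eval p (pderiv (some none) (b1 h r)) = 0) : p (some none) = 0 := by
  rw [ev_w, hs, h0, zero_pow two_ne_zero, sub_zero, zero_sub] at hw
  rcases mul_eq_zero.mp hw with h1 | h1
  · exact eq_zero_of_pow_eq_zero h1
  · exact eq_zero_of_pow_eq_zero (neg_eq_zero.mp (eq_zero_of_pow_eq_zero h1))

/-- the states (B1) with the extra conditions for the modules `u4` -/
theorem b1_state'' {h r : ℕ} (hh : 1 ≤ h) (hr : r ≤ h) :
    ∃ φ : MvPolynomial (Option (Option (Fin 1))) ℂ, St (Fin 1) (2 * h) r φ ∧ ZZ φ ∧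
      (∀ p : Option (Option (Fin 1)) → ℂ, p (some (some 0)) = 0 →
        eval p (pderiv (some (some 0)) φ) = 0 → p none = 0) ∧
      (∀ p : Option (Option (Fin 1)) → ℂ, p none = 0 → p (some (some 0)) = 0 →
        eval p (pderiv (some none) φ) = 0 → p (some none) = 0) :=
  ⟨b1 h r, b1_st hr, b1_ZZ hh hr, b1_nb0, b1_w0⟩

end

end EY
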