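import Pool.Agent.helper64.EY.Jn
import Pool.Agent.helper46.U.Gen
import Pool.Agent.helper44.U.Anti

set_option autoImplicit false
set_option linter.unusedSectionVars false

/-!
# EY-B2z: two lemmas for the step (B2) of the module U (`K = 1`, `q = 2 h`)

`b2_dist`: distribution of `D` over `c / 2` factors. `b2_psi`: a form `ψ(σ; b)` with
`ψ_b = (σ - s₀ b²)^(h-Σk) ∏ (σ - s_i b²)^(k_i)`, all `s` different and nonzero, with `ZZ`: take `s₀ = 1`,
`s_i = 1 + (i+1) η`, `η` small: `ψ(s_j; 1) = ∫_0^1 ψ_b(s_j; t) dt` is near `∫_0^1 (1-t²)^h dt > 0`.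
-/

namespace EY

open MvPolynomial Filter Topology

noncomputable section

theorem dist64 (M : ℕ) : ∀ (p D : ℕ), D ≤ p * M → ∃ k : Fin p → ℕ, (∀ i, k i ≤ M) ∧ ∑ i, k i = D := by
  intro p
  induction p with
  | zero =>
    intro D hD
    refine ⟨fun _ => 0, fun i => i.elim0, ?_⟩
    rw [zero_mul] at hD
    simp
    omega
  | succ p ih =>
    intro D hD
    rw [add_mul, one_mul] at hD
    obtain ⟨k, hk, hs⟩ := ih (D - M) (by omega)
    refine ⟨Fin.cons (min D M) k, ?_, ?_⟩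
    · intro i
      refine Fin.cases ?_ (fun j => ?_) i
      · rw [Fin.cons_zero]
        exact min_le_right _ _
      · rw [Fin.cons_succ]
        exact hk j
    · rw [Fin.sum_univ_succ, Fin.cons_zero]
      simp only [Fin.cons_succ]
      rw [hs]
      omega

theorem b2_dist {h c D : ℕ} (hc : 2 ≤ c) (hc' : c ≤ 2 * h) (hD : D < h) :
    ∃ k : Fin (c / 2) → ℕ, (∀ i, k i ≤ 2 * h - c + 1) ∧ ∑ i, k i = D := by
  apply dist64
  obtain ⟨p, hp | hp⟩ := Nat.even_or_odd' c
  · have h1 : c / 2 = p := by omega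
    obtain ⟨j, rfl⟩ : ∃ j, h = p + j := ⟨h - p, by omega⟩
    have h2 : 2 * (p + j) - c + 1 = 2 * j + 1 := by omega
    rw [h1, h2]
    have h3 : 1 ≤ p := by omega
    nlinarith
  · have h1 : c / 2 = p := by omega
    obtain ⟨j, rfl⟩ : ∃ j, h = p + 1 + j := ⟨h - p - 1, by omega⟩
    have h2 : 2 * (p + 1 + j) - c + 1 = 2 * j + 2 := by omega
    rw [h1, h2]
    have h3 : 1 ≤ p := by omega
    nlinarith

/-! ### values of the antiderivative -/

/-- restriction to the line `σ = x` -/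
def ln64 (x : ℂ) : MvPolynomial (Option (Fin 1)) ℂ →ₐ[ℂ] Polynomial ℂ :=
  aeval fun o => o.elim (Polynomial.C x) fun _ => Polynomial.X

theorem ln64_none (x : ℂ) : ln64 x (X none) = Polynomial.C x := by
  unfold ln64; rw [aeval_X]; rfl

theorem ln64_some (x : ℂ) (i : Fin 1) : ln64 x (X (some i)) = Polynomial.X := by
  unfold ln64; rw [aeval_X]; rfl

/-- the point `(x; t)` -/
def pb64 (x t : ℂ) : Option (Fin 1) → ℂ := fun o => o.elim x fun _ => t

theorem eval_ln64 (x t : ℂ) (f : MvPolynomial (Option (Fin 1)) ℂ) : (ln64 x f).eval t = eval (pb64 x t) f := by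
  induction f using MvPolynomial.induction_on with
  | C a =>
    have : ln64 x (C a) = Polynomial.C a := by unfold ln64; rw [aeval_C]; rfl
    rw [this, Polynomial.eval_C, eval_C]
  | add p q hp hq => rw [map_add, Polynomial.eval_add, hp, hq, map_add]
  | mul_X p i hp =>
    rw [map_mul, Polynomial.eval_mul, hp, map_mul, eval_X]
    rcases i with _ | i
    · rw [ln64_none, Polynomial.eval_C]; rfl
    · rw [ln64_some, Polynomial.eval_X]; rfl

theorem der_ln64 (x : ℂ) (f : MvPolynomial (Option (Fin 1)) ℂ) :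
    (ln64 x f).derivative = ln64 x (pderiv (some 0) f) := by
  induction f using MvPolynomial.induction_on with
  | C a =>
    have : ln64 x (C a) = Polynomial.C a := by unfold ln64; rw [aeval_C]; rfl
    rw [this, Polynomial.derivative_C, pderiv_C, map_zero]
  | add p q hp hq => rw [map_add, Polynomial.derivative_add, hp, hq, map_add, map_add]
  | mul_X p i hp =>
    have hi : (ln64 x (X i)).derivative = ln64 x (pderiv (some 0) (X i)) := by
      rcases i with _ | i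
      · rw [ln64_none, Polynomial.derivative_C, pderiv_X_of_ne (by simp), map_zero]
      · rw [ln64_some, Polynomial.derivative_X, Subsingleton.elim i 0, pderiv_X_self, map_one]
    rw [map_mul, Polynomial.derivative_mul, hp, hi, pderiv_mul, map_add, map_mul, map_mul]

theorem eval_anti64 (x : ℂ) (A : MvPolynomial (Option (Fin 1)) ℂ) :
    eval (pb64 x 0) (UO.anti (some 0) A) = 0 := by
  induction A using MvPolynomial.induction_on' with
  | monomial s a =>
    rw [UO.anti_monomial, eval_monomial]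
    have h1 : (s + Finsupp.single (some 0) 1 : Option (Fin 1) →₀ ℕ).prod (fun i k => pb64 x 0 i ^ k) = 0 := by
      rw [Finsupp.prod]
      apply Finset.prod_eq_zero (i := some 0)
      · rw [Finsupp.mem_support_iff, Finsupp.add_apply, Finsupp.single_eq_same]
        omega
      · have : pb64 x 0 (some 0) = 0 := rfl
        rw [this]
        apply zero_pow
        rw [Finsupp.add_apply, Finsupp.single_eq_same]
        omega
    rw [h1, mul_zero]
  | add p q hp hq => rw [map_add, map_add, hp, hq, add_zero]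

/-- `ψ(x; 1) = ∫_0^1 ψ_b(x; t) dt` -/
theorem int64 (x : ℂ) (A : MvPolynomial (Option (Fin 1)) ℂ) :
    eval (pb64 x 1) (UO.anti (some 0) A) = ∫ t in (0:ℝ)..1, eval (pb64 x (t : ℂ)) A := by
  set P := ln64 x (UO.anti (some 0) A) with hP
  have hP' : P.derivative = ln64 x A := by rw [hP, der_ln64, UO.pderiv_anti]
  have h1 : ∫ t in (0:ℝ)..1, P.derivative.eval (t : ℂ) = P.eval ((1 : ℝ) : ℂ) - P.eval ((0 : ℝ) : ℂ) := by
    refine intervalIntegral.integral_eq_sub_of_hasDerivAt (f := fun t : ℝ => P.eval (t : ℂ))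
      (f' := fun t : ℝ => P.derivative.eval (t : ℂ)) ?_ ?_
    · intro t _
      exact (P.hasDerivAt (t : ℂ)).comp_ofReal
    · apply Continuous.intervalIntegrable
      exact P.derivative.continuous.comp Complex.continuous_ofReal
  have h2 : ∀ t : ℝ, P.derivative.eval (t : ℂ) = eval (pb64 x (t : ℂ)) A := by
    intro t
    rw [hP', eval_ln64]
  simp only [h2] at h1
  rw [h1, hP, eval_ln64, eval_ln64, Complex.ofReal_zero, eval_anti64, sub_zero, Complex.ofReal_one]

/-! ### the choice of the roots -/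

variable {p : ℕ}

/-- the real value `∫_0^1 (x - t²)^m ∏ (x - s_i t²)^(k_i) dt`, `s_i = 1 + (i+1) η` -/
def G64 (m : ℕ) (k : Fin p → ℕ) (z : ℝ × ℝ) : ℝ :=
  ∫ t in (0:ℝ)..1, (z.1 - t ^ 2) ^ m * ∏ i : Fin p, (z.1 - (1 + ((i : ℕ) + 1 : ℝ) * z.2) * t ^ 2) ^ k i

theorem continuous_G64 (m : ℕ) (k : Fin p → ℕ) : Continuous (G64 m k) := by
  unfold G64
  apply intervalIntegral.continuous_parametric_intervalIntegral_of_continuous'
  fun_prop

theorem G64_pos (m : ℕ) (k : Fin p → ℕ) : 0 < G64 m k (1, 0) := by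
  unfold G64
  apply intervalIntegral.intervalIntegral_pos_of_pos_on
  · apply Continuous.intervalIntegrable
    fun_prop
  · intro t ht
    have h1 : 0 < 1 - t ^ 2 := by nlinarith [ht.1, ht.2]
    have h2 : ∀ i : Fin p, (1 : ℝ) - (1 + ((i : ℕ) + 1 : ℝ) * 0) * t ^ 2 = 1 - t ^ 2 := by
      intro i; ring
    simp only [h2]
    exact mul_pos (pow_pos h1 _) (Finset.prod_pos fun i _ => pow_pos h1 _)
  · exact one_pos

theorem exists_eta64 (m : ℕ) (k : Fin p → ℕ) : ∃ η : ℝ, η ≠ 0 ∧ (∀ i : Fin p, 0 < 1 + ((i : ℕ) + 1 : ℝ) * η) ∧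
    0 < G64 m k (1, η) ∧ ∀ j : Fin p, 0 < G64 m k (1 + ((j : ℕ) + 1 : ℝ) * η, η) := by
  have h0 : ∀ᶠ η : ℝ in 𝓝 0, 0 < G64 m k (1, η) := by
    have hc : Continuous fun η : ℝ => G64 m k (1, η) :=
      (continuous_G64 m k).comp (by fun_prop)
    exact hc.continuousAt.eventually (lt_mem_nhds (G64_pos m k))
  have h1 : ∀ j : Fin p, ∀ᶠ η : ℝ in 𝓝 0, 0 < G64 m k (1 + ((j : ℕ) + 1 : ℝ) * η, η) := by
    intro j
    have hc : Continuous fun η : ℝ => G64 m k (1 + ((j : ℕ) + 1 : ℝ) * η, η) :=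
      (continuous_G64 m k).comp (by fun_prop)
    have h2 : 0 < G64 m k (1 + ((j : ℕ) + 1 : ℝ) * 0, 0) := by
      rw [mul_zero, add_zero]
      exact G64_pos m k
    exact hc.continuousAt.eventually (lt_mem_nhds h2)
  have h3 : ∀ j : Fin p, ∀ᶠ η : ℝ in 𝓝 0, 0 < 1 + ((j : ℕ) + 1 : ℝ) * η := by
    intro j
    have hc : Continuous fun η : ℝ => 1 + ((j : ℕ) + 1 : ℝ) * η := by fun_prop
    have h2 : (0 : ℝ) < 1 + ((j : ℕ) + 1 : ℝ) * 0 := by
      rw [mul_zero, add_zero]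
      exact one_pos
    exact hc.continuousAt.eventually (lt_mem_nhds h2)
  have h4 := (h0.and ((eventually_all.mpr h1).and (eventually_all.mpr h3)))
  have h5 : ∀ᶠ η : ℝ in 𝓝[≠] 0, _ := h4.filter_mono nhdsWithin_le_nhds
  have h6 : ∀ᶠ η : ℝ in 𝓝[≠] 0, η ≠ 0 := eventually_mem_nhdsWithin
  obtain ⟨η, hη, hη'⟩ := (h5.and h6).exists
  exact ⟨η, hη', hη.2.2, hη.1, hη.2.1⟩

/-- the product -/
def A64 (m : ℕ) (k : Fin p → ℕ) (η : ℝ) : MvPolynomial (Option (Fin 1)) ℂ :=
  (X none - C 1 * X (some 0) ^ 2) ^ m *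
    ∏ i : Fin p, (X none - C (((1 + ((i : ℕ) + 1 : ℝ) * η : ℝ)) : ℂ) * X (some 0) ^ 2) ^ k i

theorem eval_A64 (m : ℕ) (k : Fin p → ℕ) (η : ℝ) (y : Option (Fin 1) → ℂ) :
    eval y (A64 m k η) = (y none - 1 * y (some 0) ^ 2) ^ m *
      ∏ i : Fin p, (y none - (((1 + ((i : ℕ) + 1 : ℝ) * η : ℝ)) : ℂ) * y (some 0) ^ 2) ^ k i := by
  unfold A64
  simp [map_prod]

theorem val64 (m : ℕ) (k : Fin p → ℕ) (η x : ℝ) :
    eval (pb64 x 1) (UO.anti (some 0) (A64 m k η)) = ((G64 m k (x, η) : ℝ) : ℂ) := by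
  rw [int64]
  unfold G64
  rw [← intervalIntegral.integral_ofReal]
  congr 1
  funext t
  rw [eval_A64]
  change ((x : ℂ) - 1 * (t : ℂ) ^ 2) ^ m * ∏ i : Fin p, ((x : ℂ) - (((1 + ((i : ℕ) + 1 : ℝ) * η : ℝ)) : ℂ) *
    (t : ℂ) ^ 2) ^ k i = _
  push_cast
  simp

theorem pb64_eta (y : Option (Fin 1) → ℂ) : y = pb64 (y none) (y (some 0)) := by
  funext o
  rcases o with _ | i
  · rfl
  · rw [Subsingleton.elim i 0]; rfl

theorem b2_psi {h : ℕ} (hh : 1 ≤ h) (k : Fin p → ℕ) (hk : ∑ i, k i ≤ h) :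
    ∃ (s0 : ℂ) (s : Fin p → ℂ) (ψ : MvPolynomial (Option (Fin 1)) ℂ), s0 ≠ 0 ∧ (∀ i, s i ≠ s0) ∧
      Function.Injective s ∧ wh (w21 (Fin 1)) (2 * h + 1) ψ ∧ Nds ψ ∧ ZZ ψ ∧
      pderiv (some 0) ψ = (X none - C s0 * X (some 0) ^ 2) ^ (h - ∑ i, k i) *
        ∏ i, (X none - C (s i) * X (some 0) ^ 2) ^ (k i) := by
  set m := h - ∑ i, k i with hm
  obtain ⟨η, hη, hpos, hG0, hG⟩ := exists_eta64 m k
  set ψ := UO.anti (some 0) (A64 m k η) with hψ
  have hwA : wh (w21 (Fin 1)) (2 * h) (A64 m k η) := by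
    have hσ : wh (w21 (Fin 1)) 2 (X none : MvPolynomial (Option (Fin 1)) ℂ) := wh_X _ _
    have hb : wh (w21 (Fin 1)) 1 (X (some 0) : MvPolynomial (Option (Fin 1)) ℂ) := wh_X _ _
    have hb2 : wh (w21 (Fin 1)) 2 (X (some 0) ^ 2 : MvPolynomial (Option (Fin 1)) ℂ) := by
      have := wh_pow hb 2
      rwa [one_mul] at this
    have hf : ∀ c : ℂ, wh (w21 (Fin 1)) 2 (X none - C c * X (some 0) ^ 2 : MvPolynomial (Option (Fin 1)) ℂ) :=
      fun c => wh_sub hσ (wh_C_mul c hb2)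
    unfold A64
    have h1 := wh_mul (wh_pow (hf 1) m) (wh_prod Finset.univ (f := fun i : Fin p =>
      (X none - C (((1 + ((i : ℕ) + 1 : ℝ) * η : ℝ)) : ℂ) * X (some 0) ^ 2 : MvPolynomial (Option (Fin 1)) ℂ) ^ k i)
      (s := fun i => 2 * k i) fun i _ => wh_pow (hf _) (k i))
    have h2 : 2 * m + ∑ i, 2 * k i = 2 * h := by
      rw [← Finset.mul_sum]
      omega
    rwa [h2] at h1
  have hwψ : wh (w21 (Fin 1)) (2 * h + 1) ψ := UO.wh_anti hwA (some 0) _ rfl
  have hder : pderiv (some 0) ψ = A64 m k η := UO.pderiv_anti _ _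
  have hroot : ∀ y : Option (Fin 1) → ℂ, eval y (A64 m k η) = 0 →
      ∃ x : ℝ, 0 < x ∧ 0 < G64 m k (x, η) ∧ y none = (x : ℂ) * y (some 0) ^ 2 := by
    intro y hy
    rw [eval_A64] at hy
    rcases mul_eq_zero.mp hy with h1 | h1
    · refine ⟨1, one_pos, hG0, ?_⟩
      rw [Complex.ofReal_one]
      exact sub_eq_zero.mp (eq_zero_of_pow_eq_zero h1)
    · obtain ⟨i, _, hi⟩ := Finset.prod_eq_zero_iff.mp h1
      exact ⟨_, hpos i, hG i, sub_eq_zero.mp (eq_zero_of_pow_eq_zero hi)⟩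
  refine ⟨1, fun i => (((1 + ((i : ℕ) + 1 : ℝ) * η : ℝ)) : ℂ), ψ, one_ne_zero, ?_, ?_, hwψ, ?_, ?_, hder⟩
  · intro i hi
    have hi' : (((1 + ((i : ℕ) + 1 : ℝ) * η : ℝ)) : ℂ) = ((1 : ℝ) : ℂ) := by
      rw [Complex.ofReal_one]
      exact hi
    have h1 : (1 + ((i : ℕ) + 1 : ℝ) * η : ℝ) = 1 := Complex.ofReal_injective hi'
    have h2 : ((i : ℕ) + 1 : ℝ) * η = 0 := by linarith
    rcases mul_eq_zero.mp h2 with h3 | h3
    · have : (0 : ℝ) < ((i : ℕ) + 1 : ℝ) := by positivity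
      exact this.ne' h3
    · exact hη h3
  · intro i j hij
    have h1 : (1 + ((i : ℕ) + 1 : ℝ) * η : ℝ) = 1 + ((j : ℕ) + 1 : ℝ) * η := Complex.ofReal_injective hij
    have h2 : (((i : ℕ) : ℝ) - ((j : ℕ) : ℝ)) * η = 0 := by linarith
    rcases mul_eq_zero.mp h2 with h3 | h3
    · apply Fin.ext
      have h4 : ((i : ℕ) : ℝ) = ((j : ℕ) : ℝ) := by linarith
      exact_mod_cast h4
    · exact absurd h3 hη
  · intro y h0 hy
    have h1 := hy 0
    rw [hder] at h1
    obtain ⟨x, hx, _, hx2⟩ := hroot y h1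
    rw [h0] at hx2
    have hb : y (some 0) = 0 := by
      rcases mul_eq_zero.mp hx2.symm with h2 | h2
      · exact absurd (Complex.ofReal_eq_zero.mp h2) hx.ne'
      · exact eq_zero_of_pow_eq_zero h2
    rw [pb64_eta y, h0, hb]
    funext o
    rcases o with _ | i <;> rfl
  · intro y hy
    have h1 := hy (some 0)
    rw [hder] at h1
    obtain ⟨x, hx, hGx, hx2⟩ := hroot y h1
    by_cases hb : y (some 0) = 0
    · rw [hb, zero_pow two_ne_zero, mul_zero] at hx2
      rw [pb64_eta y, hx2, hb]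
      funext o
      rcases o with _ | i <;> rfl
    · exfalso
      have h2 := euler_eval hwψ y
      have h3 : ∑ i, (w21 (Fin 1) i : ℂ) * (y i * eval y (pderiv i ψ)) = 0 := by
        refine Finset.sum_eq_zero fun i _ => ?_
        rw [hy i, mul_zero, mul_zero]
      rw [h3] at h2
      have h4 : ((2 * h + 1 : ℕ) : ℂ) ≠ 0 := by
        rw [Nat.cast_ne_zero]
        omega
      have h5 : eval y ψ = 0 := by
        rcases mul_eq_zero.mp h2.symm with h6 | h6
        · exact absurd h6 h4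
        · exact h6
      have h6 := eval_wh46 hwψ (y (some 0)) (pb64 x 1)
      have h7 : (fun i => y (some 0) ^ w21 (Fin 1) i * pb64 x 1 i) = y := by
        funext o
        rcases o with _ | i
        · change y (some 0) ^ 2 * (x : ℂ) = y none
          rw [hx2]
          ring
        · rw [Subsingleton.elim i 0]
          change y (some 0) ^ 1 * 1 = y (some 0)
          ring
      rw [h7, h5, hψ, val64] at h6
      rcases mul_eq_zero.mp h6.symm with h8 | h8
      · exact hb (eq_zero_of_pow_eq_zero h8)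
      · exact hGx.ne' (Complex.ofReal_eq_zero.mp h8)

end

end EY
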