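import Pool.Agent.helper5.EY.St

set_option autoImplicit false

/-!
# EY-Jn: the polynomials `∫_0^w t^m (ρ - t²)^n dt`

`Jn n m ρ w` in any commutative `ℚ`-algebra, with the derivation rule, scaling and positivity at real points.
-/

namespace EY

open MvPolynomial

noncomputable section

/-- `∫_0^w t^m (ρ - t²)^n dt` -/
def Jn {R : Type*} [CommRing R] [Algebra ℚ R] (n m : ℕ) (ρ w : R) : R :=
  ∑ k ∈ Finset.range (n + 1), algebraMap ℚ R ((-1) ^ k * (n.choose k : ℚ) / ((m + 2 * k + 1 : ℕ) : ℚ)) *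
    (ρ ^ (n - k) * w ^ (m + 2 * k + 1))

variable {R : Type*} [CommRing R] [Algebra ℚ R]

theorem map_Jn {S : Type*} [CommRing S] [Algebra ℚ S] (f : R →+* S) (n m : ℕ) (ρ w : R) :
    f (Jn n m ρ w) = Jn n m (f ρ) (f w) := by
  unfold Jn
  rw [map_sum]
  refine Finset.sum_congr rfl fun k _ => ?_
  rw [map_mul, map_mul, map_pow, map_pow, RingHom.map_rat_algebraMap]

theorem Jn_zero (n m : ℕ) (ρ : R) : Jn n m ρ 0 = 0 := by
  unfold Jn
  refine Finset.sum_eq_zero fun k _ => ?_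
  rw [zero_pow (by omega), mul_zero, mul_zero]

theorem Jn_scale (n m : ℕ) (c ρ w : R) : Jn n m (c ^ 2 * ρ) (c * w) = c ^ (2 * n + m + 1) * Jn n m ρ w := by
  unfold Jn
  rw [Finset.mul_sum]
  refine Finset.sum_congr rfl fun k hk => ?_
  obtain ⟨j, rfl⟩ : ∃ j, n = k + j := ⟨n - k, by have := Finset.mem_range.mp hk; omega⟩
  have h1 : k + j - k = j := by omega
  rw [h1, mul_pow, mul_pow, ← pow_mul]
  have h2 : c ^ (2 * (k + j) + m + 1) = c ^ (2 * j) * c ^ (m + 2 * k + 1) := by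
    rw [← pow_add]
    congr 1
    ring
  rw [h2]
  ring

/-- the derivation rule -/
theorem der_Jn {A : Type*} [CommSemiring A] [Algebra A R] (D : Derivation A R R)
    (hD : ∀ x : ℚ, D (algebraMap ℚ R x) = 0) (n m : ℕ) (ρ w : R) :
    D (Jn n m ρ w) = (n : R) * Jn (n - 1) m ρ w * D ρ + w ^ m * (ρ - w ^ 2) ^ n * D w := by
  have hc : ∀ k : ℕ, ((m + 2 * k + 1 : ℕ) : ℚ) ≠ 0 := fun k => by positivity
  have hterm : ∀ k, D (algebraMap ℚ R ((-1) ^ k * (n.choose k : ℚ) / ((m + 2 * k + 1 : ℕ) : ℚ)) *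
      (ρ ^ (n - k) * w ^ (m + 2 * k + 1))) =
      algebraMap ℚ R ((-1) ^ k * (n.choose k : ℚ) / ((m + 2 * k + 1 : ℕ) : ℚ) * ((n - k : ℕ) : ℚ)) *
        (ρ ^ (n - k - 1) * w ^ (m + 2 * k + 1)) * D ρ +
      algebraMap ℚ R ((-1) ^ k * (n.choose k : ℚ)) * (ρ ^ (n - k) * w ^ (m + 2 * k)) * D w := by
    intro k
    rw [Derivation.leibniz, Derivation.leibniz, Derivation.leibniz_pow, Derivation.leibniz_pow, hD,
      smul_zero, add_zero]
    have h1 : algebraMap ℚ R ((-1) ^ k * (n.choose k : ℚ)) =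
        algebraMap ℚ R ((-1) ^ k * (n.choose k : ℚ) / ((m + 2 * k + 1 : ℕ) : ℚ)) *
          ((m + 2 * k + 1 : ℕ) : R) := by
      rw [← map_natCast (algebraMap ℚ R) (m + 2 * k + 1), ← map_mul, div_mul_cancel₀ _ (hc k)]
    have h2 : m + 2 * k + 1 - 1 = m + 2 * k := by omega
    rw [h1, map_mul (algebraMap ℚ R) _ ((n - k : ℕ) : ℚ), map_natCast, h2]
    simp only [smul_eq_mul, nsmul_eq_mul]
    ring
  unfold Jn
  rw [map_sum, Finset.sum_congr rfl fun k _ => hterm k, Finset.sum_add_distrib, ← Finset.sum_mul,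
    ← Finset.sum_mul]
  congr 1
  · congr 1
    rcases n with _ | n
    · simp
    · rw [Finset.sum_range_succ, Finset.mul_sum]
      have h0 : (n + 1 - (n + 1) : ℕ) = 0 := by omega
      rw [h0]
      simp only [Nat.cast_zero, mul_zero, map_zero, zero_mul, add_zero]
      have h1 : n + 1 - 1 = n := by omega
      rw [h1]
      refine Finset.sum_congr rfl fun k hk => ?_
      have hk' := Finset.mem_range.mp hk
      have h3 : n + 1 - k - 1 = n - k := by omega
      have h4 : (n.choose k : ℚ) * ((n + 1 : ℕ) : ℚ) = ((n + 1).choose k : ℚ) * ((n + 1 - k : ℕ) : ℚ) := by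
        exact_mod_cast congrArg (Nat.cast : ℕ → ℚ) (Nat.choose_mul_succ_eq n k)
      have h5 : (-1 : ℚ) ^ k * ((n + 1).choose k : ℚ) / ((m + 2 * k + 1 : ℕ) : ℚ) * ((n + 1 - k : ℕ) : ℚ) =
          ((n + 1 : ℕ) : ℚ) * ((-1 : ℚ) ^ k * (n.choose k : ℚ) / ((m + 2 * k + 1 : ℕ) : ℚ)) := by
        have h6 : (-1 : ℚ) ^ k * ((n + 1).choose k : ℚ) / ((m + 2 * k + 1 : ℕ) : ℚ) * ((n + 1 - k : ℕ) : ℚ) =
          (-1 : ℚ) ^ k / ((m + 2 * k + 1 : ℕ) : ℚ) * (((n + 1).choose k : ℚ) * ((n + 1 - k : ℕ) : ℚ)) := by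
          ring
        rw [h6, ← h4]
        ring
      rw [h3, h5, map_mul, map_natCast]
      ring
  · congr 1
    have h1 : ρ - w ^ 2 = -w ^ 2 + ρ := by ring
    rw [h1, add_pow, Finset.mul_sum]
    refine Finset.sum_congr rfl fun k _ => ?_
    rw [map_mul, map_pow, map_neg, map_one, map_natCast]
    have h2 : (-w ^ 2) ^ k = (-1) ^ k * w ^ (2 * k) := by
      rw [neg_pow, pow_mul]
    rw [h2, pow_add]
    ring

theorem pderiv_Jn {σ : Type*} (i : σ) (n m : ℕ) (ρ w : MvPolynomial σ ℂ) :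
    pderiv i (Jn n m ρ w) = (n : MvPolynomial σ ℂ) * Jn (n - 1) m ρ w * pderiv i ρ +
      w ^ m * (ρ - w ^ 2) ^ n * pderiv i w :=
  der_Jn (pderiv i) (fun x => by
    have : algebraMap ℚ (MvPolynomial σ ℂ) x = C (algebraMap ℚ ℂ x) := rfl
    rw [this, pderiv_C]) n m ρ w

theorem wh_Jn {σ : Type*} [Fintype σ] {v : σ → ℕ} {ρ w : MvPolynomial σ ℂ} (n m : ℕ) (hρ : wh v 2 ρ)
    (hw : wh v 1 w) : wh v (2 * n + m + 1) (Jn n m ρ w) := by
  unfold Jn
  refine wh_sum _ fun k hk => ?_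
  have hk' := Finset.mem_range.mp hk
  have h1 : algebraMap ℚ (MvPolynomial σ ℂ) ((-1) ^ k * (n.choose k : ℚ) / ((m + 2 * k + 1 : ℕ) : ℚ)) =
      C (algebraMap ℚ ℂ ((-1) ^ k * (n.choose k : ℚ) / ((m + 2 * k + 1 : ℕ) : ℚ))) := rfl
  rw [h1]
  refine wh_C_mul _ ?_
  have h2 := wh_mul (wh_pow hρ (n - k)) (wh_pow hw (m + 2 * k + 1))
  have h3 : 2 * (n - k) + 1 * (m + 2 * k + 1) = 2 * n + m + 1 := by omega
  rwa [h3] at h2

/-- positivity at real points -/
theorem Jn_pos (n m : ℕ) {ρ w : ℝ} (hw : 0 < w) (hρ : w ^ 2 ≤ ρ) : 0 < Jn n m ρ w := by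
  set P : Polynomial ℝ := Jn n m (Polynomial.C ρ) Polynomial.X with hP
  have he : ∀ t : ℝ, P.eval t = Jn n m ρ t := by
    intro t
    have := map_Jn (Polynomial.evalRingHom t) n m (Polynomial.C ρ) (Polynomial.X : Polynomial ℝ)
    rw [Polynomial.coe_evalRingHom, Polynomial.eval_C, Polynomial.eval_X] at this
    exact this
  have hd : P.derivative = Polynomial.X ^ m * (Polynomial.C ρ - Polynomial.X ^ 2) ^ n := by
    have := der_Jn (Polynomial.derivative' (R := ℝ)) (fun x => by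
      have : algebraMap ℚ (Polynomial ℝ) x = Polynomial.C (algebraMap ℚ ℝ x) := rfl
      rw [this]
      exact Polynomial.derivative_C) n m (Polynomial.C ρ) Polynomial.X
    have h1 : (Polynomial.derivative' (Polynomial.C ρ) : Polynomial ℝ) = 0 := Polynomial.derivative_C
    have h2 : (Polynomial.derivative' (Polynomial.X : Polynomial ℝ) : Polynomial ℝ) = 1 :=
      Polynomial.derivative_X
    rw [h1, h2, mul_zero, zero_add, mul_one] at this
    exact this
  have hmono : StrictMonoOn (fun t => P.eval t) (Set.Icc 0 w) := by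
    refine strictMonoOn_of_deriv_pos (convex_Icc 0 w) P.continuous.continuousOn ?_
    intro t ht
    rw [interior_Icc] at ht
    rw [Polynomial.deriv, hd]
    simp only [Polynomial.eval_mul, Polynomial.eval_pow, Polynomial.eval_sub, Polynomial.eval_C,
      Polynomial.eval_X]
    have h1 : 0 < ρ - t ^ 2 := by nlinarith [ht.1, ht.2]
    have h2 := ht.1
    positivity
  have h := hmono (Set.left_mem_Icc.mpr hw.le) (Set.right_mem_Icc.mpr hw.le) hw
  simp only [he] at h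
  rwa [Jn_zero] at h

theorem Jn_ofReal (n m : ℕ) (ρ w : ℝ) : Jn n m (ρ : ℂ) (w : ℂ) = ((Jn n m ρ w : ℝ) : ℂ) :=
  (map_Jn Complex.ofRealHom n m ρ w).symm

end

end EY
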