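import Pool.Agent.helper50.EY.ClassE

set_option autoImplicit false
set_option linter.unusedSectionVars false

/-!
# EY-SheetL: the sheet `w = L(x)`, `L` linear (module U, step S2)

At `w = 1`: the system `1 - L(x)`, `φ_x(σ; 1, x)` has `q^K / 2` solutions if `L` and `φ_x(σ; 0, x)` have only the zero
`0`.
-/

namespace EY

open MvPolynomial

noncomputable section

variable {τ : Type} [Fintype τ] [DecidableEq τ]

/-- top forms of `φ(σ; 1, x)` for the weights `2, 1` -/
def p64 (τ : Type) : Option (Option τ) → MvPolynomial (Option τ) ℂ :=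
  fun o => o.elim (X none) fun o' => o'.elim 0 fun i => X (some i)

theorem top_ev1 {n : ℕ} {ψ : MvPolynomial (Option (Option τ)) ℂ} (hψ : wh (vw τ) n ψ) :
    Top (w21 τ) n (ev1 ψ) (aeval (p64 τ) ψ) := by
  unfold ev1
  refine Top.aeval (v := vw τ) ?_ (Top.self hψ.wlt)
  intro o
  rcases o with _ | _ | i
  · exact Top.X (w21 τ) none
  · change Top (w21 τ) 1 1 0
    refine ⟨wlt_zero _ _, ?_⟩
    rw [sub_zero]
    exact (wh_one (w21 τ)).wlt
  · exact Top.X (w21 τ) (some i)

theorem wh_p64 {n : ℕ} {ψ : MvPolynomial (Option (Option τ)) ℂ} (hψ : wh (vw τ) n ψ) :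
    wh (w21 τ) n (aeval (p64 τ) ψ) := by
  refine wh_aeval (v := vw τ) ?_ hψ
  intro o
  rcases o with _ | _ | i
  · exact wh_X (w21 τ) none
  · exact wh_zero _ _
  · exact wh_X (w21 τ) (some i)

theorem eval_p64 (p : Option τ → ℂ) (ψ : MvPolynomial (Option (Option τ)) ℂ) :
    eval p (aeval (p64 τ) ψ) = eval (pv (p none) 0 fun i => p (some i)) ψ := by
  have h : (eval p).comp (aeval (p64 τ) : MvPolynomial (Option (Option τ)) ℂ →ₐ[ℂ] _).toRingHom =
      eval (pv (p none) 0 fun i => p (some i)) := by
    apply MvPolynomial.ringHom_ext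
    · intro c
      simp
    · intro o
      rcases o with _ | _ | o
      · simp [p64, pv]
      · simp [p64, pv]
      · simp [p64, pv]
  exact RingHom.congr_fun h ψ

/-- the sheet `w = L(x)` at `w = 1` -/
theorem sheetL {q : ℕ} (hq : 0 < q) {φ : MvPolynomial (Option (Option τ)) ℂ} (hφ : wh (vw τ) (q + 1) φ)
    (c : τ → ℂ) (h0 : ∀ p : Option (Option τ) → ℂ, p (some none) = 0 → ∑ i, c i * p (some (some i)) = 0 →
      (∀ i, eval p (pderiv (some (some i)) φ) = 0) → p = 0) :
    Module.Finite ℂ (MvPolynomial (Option τ) ℂ ⧸ Ideal.span (Set.range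
        (Function.update (critOne φ) none (1 - ∑ i, C (c i) * X (some i))))) ∧
      Module.finrank ℂ (MvPolynomial (Option τ) ℂ ⧸ Ideal.span (Set.range
        (Function.update (critOne φ) none (1 - ∑ i, C (c i) * X (some i))))) * 2 = q ^ Fintype.card τ := by
  have hx : ∀ i : τ, wh (vw τ) q (pderiv (some (some i)) φ) := fun i => wh_pderiv hφ _ q rfl
  have hL : wh (w21 τ) 1 (∑ i, C (c i) * X (some i) : MvPolynomial (Option τ) ℂ) :=
    wh_sum _ fun i _ => wh_C_mul _ (wh_X (w21 τ) (some i))
  obtain ⟨h1, h2⟩ := wAff (σ := Option τ) (w := w21 τ)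
    (f := Function.update (critOne φ) none (1 - ∑ i, C (c i) * X (some i)))
    (g := fun o => o.elim (-∑ i, C (c i) * X (some i)) fun i => aeval (p64 τ) (pderiv (some (some i)) φ))
    (d := fun o => o.elim 1 fun _ => q)
    (by intro i; rcases i with _ | i <;> simp [w21])
    (by intro i; rcases i with _ | i <;> simp [hq])
    (by
      intro i
      rcases i with _ | i
      · exact wh_neg hL
      · exact wh_p64 (hx i))
    (by
      intro p hp
      have h3 : eval p (-∑ i, C (c i) * X (some i) : MvPolynomial (Option τ) ℂ) = 0 := hp none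
      rw [map_neg, neg_eq_zero, map_sum] at h3
      have h4 : pv (p none) 0 (fun i => p (some i)) = 0 := by
        refine h0 _ rfl ?_ ?_
        · have h5 : ∀ i, eval p (C (c i) * X (some i) : MvPolynomial (Option τ) ℂ) = c i * p (some i) := by
            intro i
            rw [map_mul, eval_C, eval_X]
          rw [Finset.sum_congr rfl fun i _ => h5 i] at h3
          exact h3
        · intro i
          have h6 : eval p (aeval (p64 τ) (pderiv (some (some i)) φ)) = 0 := hp (some i)
          rwa [eval_p64] at h6
      funext o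
      rcases o with _ | i
      · exact congrFun h4 none
      · exact congrFun h4 (some (some i)))
    (by
      intro i
      rcases i with _ | i
      · rw [Function.update_self]
        change Top (w21 τ) 1 _ (-∑ i, C (c i) * X (some i))
        refine ⟨(wh_neg hL).wlt, ?_⟩
        have h7 : (1 - ∑ i, C (c i) * X (some i) - -∑ i, C (c i) * X (some i) : MvPolynomial (Option τ) ℂ) = 1 := by
          ring
        rw [h7]
        exact (wh_one (w21 τ)).wlt
      · rw [Function.update_of_ne (by simp)]
        exact top_ev1 (hx i))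
  refine ⟨h1, ?_⟩
  rw [Fintype.prod_option, Fintype.prod_option] at h2
  simp only [w21, Option.elim, Finset.prod_const_one, mul_one, Finset.prod_const, Finset.card_univ, one_mul] at h2
  exact h2

end

end EY
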